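import Pool.Agent.H12P.Stm
import Pool.Agent.H11B.L3

/-!
# Project PL (helper13): prime arguments at the low scales (joins PA of helper12; target MP_8bf9c2_nt, very famous)

`L = log H`, `Y = Yh H = ⌊L / 8⌋` (`Pool.Agent.H11A.Yh`). The primes are counted WITHOUT weights, `LI N = ∑_{2 ≤ n ≤ N} 1 / log n`.
Stub `X`: file `Pool/Agent/H13L/X.lean`, theorem `Pool.Agent.H13L.X.t` of the type given in the table `plstubs`. Most of them are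
adaptations of landed files: `H11B/L1, L2, L3, Low.lean` (all integers instead of primes), `H12P/SMP, VARP, PYP.lean` (scales
`N ≥ L^B`), `H11A/St4, Pr2.lean`: import them or copy and adapt.
-/

set_option autoImplicit false

namespace Pool.Agent.H13L

open Finset Filter
open Pool.Agent.H373R2.T7 (lamz pz Vz)
open Pool.Agent.H13K Pool.Agent.H12P

noncomputable def LI (N : ℕ) : ℝ := ∑ n ∈ Icc 2 N, 1 / Real.log n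

/-- the primes in `(z, N]` -/
noncomputable def DP (z N : ℕ) : Finset ℕ := (Ioc z N).filter Nat.Prime

/-- **PRIMD** (type `Pool.Agent.H11P.SWU → S_PRIMD`): `Pool.Agent.H11A.prim` (file `H11A/Pr2.lean`, with `mom_asym` of `H11A/St4.lean`) for
an arbitrary subset `D` of the interval. Proof: copy `mom_asym` and `prim`; the lemma `moment` has an arbitrary `D` already; in
`mom_asym` use `card D ≤ L` (the bound is increasing in `card D`) and `#(D ∩ class) ≤ #(Ioc ∩ class) ≤ L/p + 1` (`cls_card`); in `prim`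
replace `Ioc J (J + L)` by `D`, `card D = L` by `≤`. -/
def S_PRIMD : Prop := ∀ (k d r A A' E K : ℕ), 1 ≤ k → 1 ≤ r → 2 * r ≤ d + 1 → ∀ δ δ' : ℝ, 0 < δ' → δ' < δ → δ ≤ 1 →
  ∀ᶠ H : ℕ in atTop, ∀ (P : Fin k → Polynomial ℤ) (J L : ℕ), ∀ D ⊆ Ioc J (J + L),
    Real.log H ^ ((k : ℝ) + δ) ≤ L → ((J + L : ℕ) : ℝ) ≤ Real.log H ^ A →
    (∀ i, ∀ n ∈ Ioc J (J + L), |(((P i).eval (n : ℤ) : ℤ) : ℝ)| ≤ H * Real.log H ^ A') →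
    (((Pool.Agent.H11A.ab k d H).filter (fun a => (L : ℝ) / Real.log (Real.log H) ^ K <
      |Real.log H ^ k * Pool.Agent.H11A.pts P D a -
        Pool.Agent.H11A.kS (Pool.Agent.H11A.pri 0 (Pool.Agent.H11A.Yh H)) ^ k *
          Pool.Agent.H11A.NS P D (Pool.Agent.H11A.Yh H) a|)).card : ℝ) ≤
      ((Real.log H ^ (-δ')) ^ r + 1 / Real.log H ^ E) * (Pool.Agent.H11A.ab k d H).card

/-- **PGQ** (type `S_PRIMD → S_PGQ`): the prime points on the grid. Proof. `H11B.prim_grid` (file `H11B/L1.lean`) with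
`D = (Ioc 0 N).filter Nat.Prime`, `N = q 2^s`, in the place of `Ioc 0 N` (`d = 1`, `r = 1`, `δ' = δ/2`), then `H11B.transfer` as in the
proof of `H11B.low` (`c1`, file `H11B/Low.lean`); `P1 a N = pts (hi a) D (lo hdd a)` and `∑_{n ∈ D} sf = kS^m NS (hi a) D Y (lo hdd a)` as in
`H11B.Pf_eq`, `H11B.sf_sum` (file `H11B/L2.lean`). -/
def S_PGQ : Prop := ∀ (m : ℕ) (dd : Fin m → ℕ), 1 ≤ m → (∀ i, 1 ≤ dd i) → ∀ (A M1 K : ℕ) (δ ε : ℝ), 0 < δ → δ ≤ 1 →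
  0 < ε → ∀ᶠ H : ℕ in atTop, ∃ Bad ⊆ bx dd H, (Bad.card : ℝ) ≤ ε * (bx dd H).card ∧ ∀ a ∈ bx dd H, a ∉ Bad →
    (∀ s q : ℕ, q < M1 → Real.log H ^ ((m : ℝ) + δ) ≤ (q * 2 ^ s : ℕ) → ((q * 2 ^ s : ℕ) : ℝ) ≤ Real.log H ^ A →
      |Real.log H ^ m * P1 a (q * 2 ^ s) -
        ∑ n ∈ (Icc 1 (q * 2 ^ s)).filter Nat.Prime, sf (Pool.Agent.H11A.Yh H) a (n : ℤ)| ≤
        ((q * 2 ^ s : ℕ) : ℝ) / Real.log (Real.log H) ^ K) ∧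
    (∀ i, ∀ n ∈ Ioc 0 ⌊Real.log H ^ A⌋₊, H / Real.log H ^ (A + 2) ≤ |((Fv (a i) (n : ℤ) : ℤ) : ℝ)|)

/-- **SWPI** (type `Pool.Agent.H11P.SWU → S_SWPI`): Siegel-Walfisz without weights. Proof. Abel summation (`Pool.Agent.H13K.T2.abel_bd` or by
hand) with the nonincreasing weights `1 / log n`, `n ≥ 2`, and the partial sums of `Λ(n) 1[n ≡ c (e)] - 1/φ(e)`, which are
`≤ N/(log N)^{A+2} + 2` by SWU (`x = N`, all `y ≤ N`). Then `∑ Λ(n)/log n` counts the primes with weight `1` and the proper prime powers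
(at most `√N log N`-like many) with weights `≤ 1/2`. -/
def S_SWPI : Prop := ∀ D A : ℕ, ∃ N0 : ℕ, ∀ N : ℕ, N0 ≤ N → ∀ e : ℕ, 1 ≤ e → (e : ℝ) ≤ Real.log N ^ D →
  ∀ c : ℕ, c.Coprime e →
  |(((Icc 1 N).filter (fun n => n.Prime ∧ n ≡ c [MOD e])).card : ℝ) - LI N / (Nat.totient e : ℝ)| ≤ N / Real.log N ^ A

/-- **VARQ** (type `S_VZ → S_SWPI → S_VARQ`). Adapt `H12P/VARP.lean`. `Ym m z h = ∑_{S ⊆ pz z} γ(S) 1[e_S ∣ h]`, `Y1 = ∑_S γ(S)/φ(e_S)`; all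
`n ∈ DP z N` are prime to `e_S`. With `π(c) = #{n ∈ DP z N : n ≡ c (e_S)}` the left side is
`∑_S γ(S) ∑_{(c,e)=1} (π(c) - #DP/φ(e))^2`. `e_S ≤ (log N)^D`: by SWPI (for `e` and for `1`) and `z ≤ N^{1-κ}` every difference is
`≤ 2 N/(log N)^{A2} + 2 z`. `e_S > (log N)^D`: `∑_c π(c)^2 ≤ (N/e + 1) N ≤ N^2/(log N)^D + N`. `∑_S γ(S) = (Vz z)^{-m} ≤ (C log N)^m`. -/
def S_VARQ : Prop := ∀ (m A : ℕ) (κ : ℝ), 0 < κ → κ < 1 → ∃ N0 : ℕ, ∀ N : ℕ, N0 ≤ N → ∀ z : ℕ,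
  (z : ℝ) ≤ (N : ℝ) ^ (1 - κ) →
  ∑ n ∈ DP z N, ∑ n' ∈ DP z N, (Ym m z ((n : ℤ) - n') - Y1 m z) ≤ (N : ℝ) ^ 2 / Real.log N ^ A

/-- **SMQ** (type `S_FL → S_CRTP → S_AVP → S_VARQ → S_SMQ`). Adapt `H12P/SMP.lean` (simpler: no weights). `C1 = (1/φ) ∑_{α ∈ RP z} sf α`
(CRTP). Square, sum over the box, FL (`E = 1`, `U = A + 1`) for all pairs `(n, n')`, `(n, α)`, `(α, α')`; by AVP the main terms are
`#bx ∑_{n,n'} (Ym (n - n') - Y1)`, at most `#bx N^2/(log N)^{A+1}` by VARQ; the errors are `≤ 4 #bx N^2/(log H)^{A+1}`, `log N ≤ log H`. -/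
def S_SMQ : Prop := ∀ (m : ℕ) (dd : Fin m → ℕ) (A : ℕ) (κ : ℝ), (∀ i, 1 ≤ dd i) → 0 < κ → κ < 1 →
  ∃ N0 H0 : ℕ, ∀ H : ℕ, H0 ≤ H → ∀ z : ℕ, 3 ≤ z → (z : ℝ) ≤ Real.log H → ∀ N : ℕ, N0 ≤ N →
  (z : ℝ) ≤ (N : ℝ) ^ (1 - κ) → N ≤ H →
  ∑ a ∈ bx dd H, (∑ n ∈ DP z N, (sf z a (n : ℤ) - C1 z a)) ^ 2 ≤
    ((bx dd H).card : ℝ) * (N : ℝ) ^ 2 / Real.log N ^ A

/-- **GRQ** (type `S_VZ → S_LOWCP → S_SWPI → S_SMQ → S_GRQ`): the sieved values on the grid. Adapt `H11B.sm_grid` (file `H11B/L3.lean`): at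
most `(2 A log L + 1) M1` points `N = q 2^s`, Chebyshev with SMQ (`z = Y = Yh H ≤ L/8 ≤ N^{1-κ}`, `κ = δ/(2 + 2 δ)`, as `N ≥ L^{1+δ}`;
exponent `2 K + 3`, `log N ≥ log L`). Then `#DP Y N = #{p ≤ N} + O(Y) = LI N + O(N/(log N)^{K+m+3} + Y)` (SWPI, `e = 1`), the primes `≤ Y`
contribute at most `Y (Vz Y)^{-m}` to the sum of `sf`, `C1 ≤ (Vz Y)^{-m} ≤ (C log L)^m` (LOWCP, VZ), `log N ≤ A log L`, `Y ≤ L ≤ N^{1-κ}`. -/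
def S_GRQ : Prop := ∀ (m : ℕ) (dd : Fin m → ℕ), (∀ i, 1 ≤ dd i) → ∀ (A M1 K : ℕ) (δ ε : ℝ), 0 < δ → 0 < ε →
  ∀ᶠ H : ℕ in atTop, ∃ Bad ⊆ bx dd H, (Bad.card : ℝ) ≤ ε * (bx dd H).card ∧ ∀ a ∈ bx dd H, a ∉ Bad →
    ∀ s q : ℕ, q < M1 → Real.log H ^ (1 + δ) ≤ (q * 2 ^ s : ℕ) → ((q * 2 ^ s : ℕ) : ℝ) ≤ Real.log H ^ A →
      |∑ n ∈ (Icc 1 (q * 2 ^ s)).filter Nat.Prime, sf (Pool.Agent.H11A.Yh H) a (n : ℤ) -
        C1 (Pool.Agent.H11A.Yh H) a * LI (q * 2 ^ s)| ≤ ((q * 2 ^ s : ℕ) : ℝ) / Real.log (Real.log H) ^ K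

/-- **PYQ** (type `S_PY → S_LOWC → S_LOWCP → S_PYQ`): the constants cut at different points, `z0` independent of `H`. Adapt
`H12P/PYP.lean`. `Bad` = the `Bad` of PY for `z0`, the arrays with some `a i 0 = 0`, and the arrays with
`∑_{z0 < p ≤ H, p ∣ ∏ a i 0} 1/p > ε/16` (Markov: the sum of this over the box is `≤ m #bx ∑_{z0 < p ≤ H} (1/p)(1/p + 1/(2H+1))
≤ m #bx (1/z0 + (1 + log H)/(2H+1))`). Outside `Bad` the quotient of the factors of `C1` and `Cz` at `p > z0` is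
`1 - om/((p-1)(p-om))`, `om ≤ D₀`, if `p ∤ ∏ F_i(0)`, `F_i(0) = a i 0`, and `p/(p-1)` otherwise (`om1 = om - 1`); the product of the former over
`z0 < p ≤ z` is in `[1 - 8 D₀/z0, 1]`, of the latter in `[1, exp (2 ∑ 1/p)]`. -/
def S_PYQ : Prop := ∀ (m : ℕ) (dd : Fin m → ℕ), (∀ i, 1 ≤ dd i) → ∀ ε : ℝ, 0 < ε → ∃ z0 H0 : ℕ, 3 ≤ z0 ∧
  ∀ H : ℕ, H0 ≤ H → ∃ Bad ⊆ bx dd H, (Bad.card : ℝ) ≤ ε * (bx dd H).card ∧
  ∀ a ∈ bx dd H, a ∉ Bad → (∀ p : ℕ, p.Prime → om1 p a ≠ p - 1) → ∀ z : ℕ, z0 ≤ z → z ^ 4 ≤ H →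
    |C1 z a - C1 z0 a| ≤ ε * C1 z0 a

/-- **LOWPR** (type `S_PGQ → S_GRQ → S_PYQ → S_LOWCP → S_LOWPR`): the theorem for the low scales. Adapt `H11B.low`. (helper13) -/
def S_LOWPR : Prop := ∀ (m : ℕ) (dd : Fin m → ℕ), 1 ≤ m → (∀ i, 1 ≤ dd i) → ∀ (A : ℕ) (δ ε : ℝ), 0 < δ → 0 < ε →
  ∃ z0 H0 : ℕ, ∀ H : ℕ, H0 ≤ H → ∃ Bad ⊆ bx dd H, (Bad.card : ℝ) ≤ ε * (bx dd H).card ∧
  ∀ a ∈ bx dd H, a ∉ Bad → (∀ p : ℕ, p.Prime → om1 p a ≠ p - 1) → ∀ z : ℕ, z0 ≤ z → z ^ 4 ≤ H → 0 < C1 z a ∧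
    ∀ N : ℕ, Real.log H ^ ((m : ℝ) + δ) ≤ N → (N : ℝ) ≤ Real.log H ^ A →
      |P1 a N - C1 z a * L1 a N| ≤ ε * (C1 z a * L1 a N)

end Pool.Agent.H13L
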