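import Pool.Agent.H12P.PYP
import Pool.Agent.H13L.Stm

/-!
# The constants for prime arguments, cut at a point independent of the height (helper13)
-/

set_option autoImplicit false

namespace Pool.Agent.H13L.PYQ

open Finset
open Pool.Agent.H373R2.T7 (lamz pz Vz mem_pz)
open Pool.Agent.H13K Pool.Agent.H12P
open Pool.Agent.H13K.LOWC (om_deg)
open Pool.Agent.H12P.LOWCP (om1_sub)
open Pool.Agent.H12P.PYP (om_split prod_ge split_prod)

/-- a condition on one constant term -/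
theorem one_count {m : ℕ} (dd : Fin m → ℕ) (H : ℕ) (i : Fin m) (P : ℤ → Prop) [DecidablePred P] :
    (2 * H + 1) * ((bx dd H).filter (fun a => P (a i 0))).card ≤
      (bx dd H).card * ((Icc (-(H : ℤ)) H).filter P).card := by
  classical
  have h1 : (2 * H + 1) * ((bx dd H).filter (fun a => P (a i 0))).card =
      ((Icc (-(H : ℤ)) H) ×ˢ ((bx dd H).filter (fun a => P (a i 0)))).card := by
    rw [card_product, Int.card_Icc]
    congr 1
    omega
  rw [h1, ← card_product]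
  apply card_le_card_of_injOn
    (fun q : ℤ × (∀ i : Fin m, Fin (dd i + 1) → ℤ) =>
      ((Function.update q.2 i (Function.update (q.2 i) 0 q.1) : ∀ i : Fin m, Fin (dd i + 1) → ℤ), q.2 i 0))
  · intro q hq
    rw [mem_coe, mem_product, mem_filter] at hq
    have hb : ∀ j l, q.2 j l ∈ Icc (-(H : ℤ)) H := by
      intro j l
      have h2 := hq.2.1
      unfold bx at h2
      exact (Fintype.mem_piFinset.1 ((Fintype.mem_piFinset.1 h2) j)) l
    rw [mem_coe, mem_product, mem_filter]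
    refine ⟨?_, hb i 0, hq.2.2⟩
    unfold bx
    rw [Fintype.mem_piFinset]
    intro j
    rw [Fintype.mem_piFinset]
    intro l
    dsimp only
    by_cases hj : j = i
    · subst hj
      rw [Function.update_self]
      by_cases hl : l = 0
      · subst hl
        rw [Function.update_self]
        exact hq.1
      · rw [Function.update_of_ne hl]
        exact hb j l
    · rw [Function.update_of_ne hj]
      exact hb j l
  · intro q hq q' hq' heq
    dsimp only at heq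
    have heq1 := (Prod.ext_iff.mp heq).1
    have heq2 := (Prod.ext_iff.mp heq).2
    dsimp only at heq1 heq2
    have e1 : q.1 = q'.1 := by
      have := congrFun (congrFun heq1 i) 0
      rwa [Function.update_self, Function.update_self, Function.update_self, Function.update_self] at this
    have e2 : q.2 = q'.2 := by
      funext j l
      by_cases hj : j = i
      · subst hj
        by_cases hl : l = 0
        · subst hl
          exact heq2
        · have := congrFun (congrFun heq1 j) l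
          rwa [Function.update_self, Function.update_self, Function.update_of_ne hl,
            Function.update_of_ne hl] at this
      · have := congrFun heq1 j
        rw [Function.update_of_ne hj, Function.update_of_ne hj] at this
        rw [this]
    exact Prod.ext e1 e2

/-- the multiples of `p` -/
lemma mult_count (p H : ℕ) (hp : 0 < p) :
    (((Icc (-(H : ℤ)) H).filter (fun x => (p : ℤ) ∣ x)).card : ℝ) ≤ (2 * (H : ℝ) + 1) / p + 1 := by
  have h0 : Icc (-(H : ℤ)) H = Ioc (-(H : ℤ) - 1) H := by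
    ext x
    rw [mem_Icc, mem_Ioc]
    omega
  have hp' : (0 : ℤ) < p := by exact_mod_cast hp
  have hpr : (0 : ℝ) < p := by exact_mod_cast hp
  have h1 := Int.Ioc_filter_dvd_card (-(H : ℤ) - 1) H hp'
  rw [h0]
  have h2 : (((Ioc (-(H : ℤ) - 1) H).filter (fun x => (p : ℤ) ∣ x)).card : ℤ) =
      max (⌊((H : ℤ) : ℚ) / ((p : ℤ) : ℚ)⌋ - ⌊((-(H : ℤ) - 1 : ℤ) : ℚ) / ((p : ℤ) : ℚ)⌋) 0 := by
    rw [← h1]
  have h3 : ((⌊((H : ℤ) : ℚ) / ((p : ℤ) : ℚ)⌋ : ℤ) : ℚ) ≤ ((H : ℤ) : ℚ) / ((p : ℤ) : ℚ) := Int.floor_le _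
  have h4 : ((-(H : ℤ) - 1 : ℤ) : ℚ) / ((p : ℤ) : ℚ) - 1 < ((⌊((-(H : ℤ) - 1 : ℤ) : ℚ) / ((p : ℤ) : ℚ)⌋ : ℤ) : ℚ) :=
    Int.sub_one_lt_floor _
  have h5 : (((((Ioc (-(H : ℤ) - 1) H).filter (fun x => (p : ℤ) ∣ x)).card : ℤ)) : ℚ) ≤ (2 * (H : ℚ) + 1) / p + 1 := by
    rw [h2]
    push_cast
    refine max_le ?_ (by positivity)
    push_cast at h3 h4
    have h6 : (2 * (H : ℚ) + 1) / p = (H : ℚ) / p - (-(H : ℚ) - 1) / p := by ring
    rw [h6]
    linarith
  have h6 : (((((Ioc (-(H : ℤ) - 1) H).filter (fun x => (p : ℤ) ∣ x)).card : ℤ) : ℚ) : ℝ) ≤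
      (((2 * (H : ℚ) + 1) / p + 1 : ℚ) : ℝ) := by exact_mod_cast h5
  push_cast at h6
  exact h6

/-- the mean of the sum of `1/p` over the primes dividing the constant terms -/
lemma mean {m : ℕ} (dd : Fin m → ℕ) (H z : ℕ) (hz : 1 ≤ z) :
    ∑ a ∈ bx dd H, ∑ p ∈ (Ioc z H).filter (fun p : ℕ => p.Prime ∧ (p : ℤ) ∣ ∏ i, a i 0), 1 / (p : ℝ) ≤
      m * ((bx dd H).card : ℝ) * (2 / z) := by
  classical
  have hzr : (1 : ℝ) ≤ z := by exact_mod_cast hz
  set b : ℝ := ((bx dd H).card : ℝ) with hb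
  have hb0 : 0 ≤ b := Nat.cast_nonneg _
  have h1 : ∑ a ∈ bx dd H, ∑ p ∈ (Ioc z H).filter (fun p : ℕ => p.Prime ∧ (p : ℤ) ∣ ∏ i, a i 0), 1 / (p : ℝ) =
      ∑ p ∈ Ioc z H, ∑ a ∈ bx dd H, if p.Prime ∧ (p : ℤ) ∣ ∏ i, a i 0 then 1 / (p : ℝ) else 0 := by
    rw [sum_comm]
    exact sum_congr rfl fun a _ => sum_filter _ _
  rw [h1]
  have h2 : ∀ p ∈ Ioc z H, (∑ a ∈ bx dd H, if p.Prime ∧ (p : ℤ) ∣ ∏ i, a i 0 then 1 / (p : ℝ) else 0) ≤
      m * b * (1 / (p : ℝ) ^ 2) + m * b * (1 / ((2 * H + 1) * z)) := by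
    intro p hp
    rw [mem_Ioc] at hp
    have hp0 : 0 < p := by omega
    have hpr : (0 : ℝ) < p := by exact_mod_cast hp0
    have hzp : (z : ℝ) ≤ p := by exact_mod_cast hp.1.le
    by_cases hpp : p.Prime
    · have h3 : (∑ a ∈ bx dd H, if p.Prime ∧ (p : ℤ) ∣ ∏ i, a i 0 then 1 / (p : ℝ) else 0) ≤
          ∑ a ∈ bx dd H, ∑ i : Fin m, if (p : ℤ) ∣ a i 0 then 1 / (p : ℝ) else 0 := by
        refine sum_le_sum fun a _ => ?_
        have h4 : ∀ i ∈ (univ : Finset (Fin m)), (0 : ℝ) ≤ if (p : ℤ) ∣ a i 0 then 1 / (p : ℝ) else 0 := by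
          intro i _
          split_ifs
          · positivity
          · exact le_rfl
        split_ifs with h
        · obtain ⟨i, hi, h5⟩ := (Prime.dvd_finsetProd_iff (Nat.prime_iff_prime_int.mp hpp) _).mp h.2
          refine le_trans ?_ (single_le_sum h4 hi)
          rw [if_pos h5]
        · exact sum_nonneg h4
      refine h3.trans ?_
      rw [sum_comm]
      have h4 : ∀ i ∈ (univ : Finset (Fin m)), (∑ a ∈ bx dd H, if (p : ℤ) ∣ a i 0 then 1 / (p : ℝ) else 0) ≤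
          b * (1 / (p : ℝ) ^ 2) + b * (1 / ((2 * H + 1) * z)) := by
        intro i _
        rw [← sum_filter, sum_const, nsmul_eq_mul]
        have h5 : (2 * (H : ℝ) + 1) * (((bx dd H).filter (fun a => (p : ℤ) ∣ a i 0)).card : ℝ) ≤
            b * (((Icc (-(H : ℤ)) H).filter (fun x => (p : ℤ) ∣ x)).card : ℝ) := by
          rw [hb]
          exact_mod_cast one_count dd H i (fun x => (p : ℤ) ∣ x)
        have h6 := mult_count p H hp0
        have hH0 : (0 : ℝ) < 2 * (H : ℝ) + 1 := by positivity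
        have h7 : (((bx dd H).filter (fun a => (p : ℤ) ∣ a i 0)).card : ℝ) ≤
            b * (1 / p + 1 / (2 * H + 1)) := by
          have h8 : (2 * (H : ℝ) + 1) * (((bx dd H).filter (fun a => (p : ℤ) ∣ a i 0)).card : ℝ) ≤
              (2 * (H : ℝ) + 1) * (b * (1 / p + 1 / (2 * H + 1))) := by
            refine h5.trans ((mul_le_mul_of_nonneg_left h6 hb0).trans (le_of_eq ?_))
            field_simp
          exact le_of_mul_le_mul_left h8 hH0
        calc (((bx dd H).filter (fun a => (p : ℤ) ∣ a i 0)).card : ℝ) * (1 / p) ≤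
              b * (1 / p + 1 / (2 * H + 1)) * (1 / p) := mul_le_mul_of_nonneg_right h7 (by positivity)
          _ = b * (1 / (p : ℝ) ^ 2) + b * (1 / ((2 * H + 1) * p)) := by
            field_simp
          _ ≤ _ := by
            gcongr
      refine (sum_le_sum h4).trans (le_of_eq ?_)
      rw [sum_const, card_univ, Fintype.card_fin, nsmul_eq_mul]
      ring
    · have h3 : (∑ a ∈ bx dd H, if p.Prime ∧ (p : ℤ) ∣ ∏ i, a i 0 then 1 / (p : ℝ) else 0) = 0 := by
        refine sum_eq_zero fun a _ => ?_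
        rw [if_neg fun h => hpp h.1]
      rw [h3]
      positivity
  refine (sum_le_sum h2).trans ?_
  rw [sum_add_distrib, ← mul_sum, sum_const, nsmul_eq_mul]
  have h3 := Pool.Agent.H13K.PY.sum_sq (k := z) (n := H) hz
  have h4 : ((Ioc z H).card : ℝ) ≤ H := by
    rw [Nat.card_Ioc]
    exact_mod_cast Nat.sub_le H z
  have h5 : ((Ioc z H).card : ℝ) * (m * b * (1 / ((2 * H + 1) * z))) ≤ m * b * (1 / z) := by
    calc ((Ioc z H).card : ℝ) * (m * b * (1 / ((2 * H + 1) * z))) ≤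
          H * (m * b * (1 / ((2 * H + 1) * z))) := mul_le_mul_of_nonneg_right h4 (by positivity)
      _ = m * b * (1 / z) * (H / (2 * H + 1)) := by
        field_simp
      _ ≤ m * b * (1 / z) * 1 := by
        refine mul_le_mul_of_nonneg_left ?_ (by positivity)
        rw [div_le_one (by positivity)]
        have : (0 : ℝ) ≤ H := Nat.cast_nonneg _
        linarith
      _ = _ := by ring
  have h6 : m * b * ∑ i ∈ Ioc z H, 1 / (i : ℝ) ^ 2 ≤ m * b * (1 / z) := mul_le_mul_of_nonneg_left h3 (by positivity)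
  have h7 : m * b * (2 / z) = m * b * (1 / z) + m * b * (1 / z) := by ring
  rw [h7]
  exact add_le_add h6 h5

theorem main {m : ℕ} {dd : Fin m → ℕ} {H z Y : ℕ} {δ η : ℝ} (hz3 : 3 ≤ z) (hzD : 2 * (∑ i, dd i) + 2 ≤ z)
    (hδ : δ ≤ 1 / 2) (hη0 : 0 ≤ η) (hη : η ≤ 1 / 4)
    {a : ∀ i : Fin m, Fin (dd i + 1) → ℤ}
    (hsum : ∑ p ∈ (Ioc z H).filter (fun p : ℕ => p.Prime ∧ (p : ℤ) ∣ ∏ i, a i 0), 1 / (p : ℝ) ≤ η)
    (hpos : 0 < Cz z a) (hzY : z ≤ Y) (hYH : Y ≤ H)
    (hPY : |Cz Y a - Cz z a| ≤ δ * Cz z a) :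
    |C1 Y a - C1 z a| ≤ (2 * δ + 4 * (∑ i, dd i : ℕ) / z + 4 * η) * C1 z a := by
  set D0 : ℕ := ∑ i, dd i with hD0
  set S := (pz Y).filter (fun p => z < p) with hS
  have hzr : (3 : ℝ) ≤ z := by exact_mod_cast hz3
  have hSp : ∀ p ∈ S, p.Prime ∧ z < p ∧ p ≤ Y := fun p hp => by
    have h1 := mem_filter.mp hp
    have h2 := mem_pz.mp h1.1
    exact ⟨h2.2, h1.2, h2.1⟩
  have hCY : Cz Y a = Cz z a * ∏ p ∈ S, (1 - (om p a : ℝ) / p) / (1 - 1 / (p : ℝ)) ^ m := split_prod hzY _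
  have h1Y : C1 Y a = C1 z a * ∏ p ∈ S, (1 - (om1 p a : ℝ) / (p - 1)) / (1 - 1 / (p : ℝ)) ^ m := split_prod hzY _
  set PA : ℝ := ∏ p ∈ S, (1 - (om p a : ℝ) / p) / (1 - 1 / (p : ℝ)) ^ m with hPA
  set PB : ℝ := ∏ p ∈ S, (1 - (om1 p a : ℝ) / (p - 1)) / (1 - 1 / (p : ℝ)) ^ m with hPB
  have hPA1 : |PA - 1| ≤ δ := by
    have h1 : Cz Y a - Cz z a = Cz z a * (PA - 1) := by rw [hCY]; ring
    rw [h1, abs_mul, abs_of_pos hpos, mul_comm] at hPY
    exact le_of_mul_le_mul_right hPY hpos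
  have hδ0 : 0 ≤ δ := le_trans (abs_nonneg _) hPA1
  have hPA2 := abs_le.mp hPA1
  have hPA0 : 0 < PA := by linarith
  have hom : ∀ p ∈ S, om p a ≠ p := by
    intro p hp h
    have h1 : PA = 0 := by
      rw [hPA]
      refine prod_eq_zero hp ?_
      have h2 : (p : ℝ) ≠ 0 := by exact_mod_cast (hSp p hp).1.ne_zero
      rw [h, div_self h2, sub_self, zero_div]
    linarith
  have homD : ∀ p ∈ S, om p a ≤ D0 := fun p hp => om_deg p (hSp p hp).1 a (hom p hp)
  have hfac : ∀ p ∈ S, (3 : ℝ) ≤ p ∧ (z : ℝ) ≤ p - 1 ∧ (om p a : ℝ) ≤ D0 ∧ (D0 : ℝ) ≤ p / 2 := by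
    intro p hp
    have h1 := (hSp p hp).2.1
    have h2 : (z : ℝ) + 1 ≤ p := by exact_mod_cast h1
    have h3 : 2 * (D0 : ℝ) + 2 ≤ z := by exact_mod_cast hzD
    refine ⟨by linarith, by linarith, by exact_mod_cast homD p hp, by linarith⟩
  have hrho : ∀ p ∈ S, (1 - (om1 p a : ℝ) / (p - 1)) / (1 - 1 / (p : ℝ)) ^ m =
      (1 - (om p a : ℝ) / p) / (1 - 1 / (p : ℝ)) ^ m * ((1 - (om1 p a : ℝ) / (p - 1)) / (1 - (om p a : ℝ) / p)) := by
    intro p hp
    obtain ⟨h1, h2, h3, h4⟩ := hfac p hp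
    have h5 : 1 - (om p a : ℝ) / p ≠ 0 := by
      have h6 : (om p a : ℝ) / p ≤ 1 / 2 := by
        rw [div_le_iff₀ (by linarith)]
        linarith
      intro h
      linarith
    rw [div_mul_div_comm, mul_comm (1 - (om p a : ℝ) / p), mul_div_mul_right _ _ h5]
  set PR : ℝ := ∏ p ∈ S, (1 - (om1 p a : ℝ) / (p - 1)) / (1 - (om p a : ℝ) / p) with hPR
  have hPBe : PB = PA * PR := by
    rw [hPB, hPA, hPR, ← prod_mul_distrib]
    exact prod_congr rfl hrho
  have hlow : ∀ p ∈ S, 1 - 4 * (D0 : ℝ) * (1 / (p : ℝ) ^ 2) ≤ (1 - (om1 p a : ℝ) / (p - 1)) / (1 - (om p a : ℝ) / p) ∧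
      (1 - (om1 p a : ℝ) / (p - 1)) / (1 - (om p a : ℝ) / p) ≤
        1 + (if (p : ℤ) ∣ ∏ i, a i 0 then 2 * (1 / (p : ℝ)) else 0) := by
    intro p hp
    obtain ⟨h1, h2, h3, h4⟩ := hfac p hp
    have hp0 : (0 : ℝ) < p := by linarith
    have hp1 : (0 : ℝ) < (p : ℝ) - 1 := by linarith
    have hD : (0 : ℝ) ≤ D0 := Nat.cast_nonneg _
    have ho0 : (0 : ℝ) ≤ om p a := Nat.cast_nonneg _
    have hpo : (0 : ℝ) < (p : ℝ) - om p a := by linarith
    have e0 : 1 - (om p a : ℝ) / p = ((p : ℝ) - om p a) / p := by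
      field_simp
    split_ifs with hd
    · have h5 : (om1 p a : ℝ) = (om p a : ℝ) - 1 := by
        have := ((om_split p (hSp p hp).1 a).1 hd)
        rw [this]
        push_cast
        ring
      have e1 : (1 - (om1 p a : ℝ) / (p - 1)) / (1 - (om p a : ℝ) / p) = 1 + 1 / ((p : ℝ) - 1) := by
        rw [h5, e0]
        field_simp
        ring
      rw [e1]
      constructor
      · have h6 : 0 ≤ 4 * (D0 : ℝ) * (1 / (p : ℝ) ^ 2) := by positivity
        have h7 : 0 ≤ 1 / ((p : ℝ) - 1) := by positivity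
        linarith
      · have h6 : 1 / ((p : ℝ) - 1) ≤ 2 * (1 / (p : ℝ)) := by
          rw [mul_one_div, div_le_div_iff₀ hp1 (by linarith)]
          linarith
        linarith
    · have h5 : (om1 p a : ℝ) = (om p a : ℝ) := by
        rw [((om_split p (hSp p hp).1 a).2 hd)]
      have e1 : (1 - (om1 p a : ℝ) / (p - 1)) / (1 - (om p a : ℝ) / p) =
          1 - (om p a : ℝ) / (((p : ℝ) - 1) * ((p : ℝ) - om p a)) := by
        rw [h5, e0]
        field_simp
        ring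
      rw [e1]
      constructor
      · have h6 : (om p a : ℝ) / (((p : ℝ) - 1) * ((p : ℝ) - om p a)) ≤ 4 * (D0 : ℝ) * (1 / (p : ℝ) ^ 2) := by
          rw [mul_one_div, div_le_div_iff₀ (by positivity) (by positivity)]
          have h7 : (p : ℝ) / 2 ≤ (p : ℝ) - 1 := by linarith
          have h8 : (p : ℝ) / 2 ≤ (p : ℝ) - om p a := by linarith
          have h9 : (p : ℝ) / 2 * ((p : ℝ) / 2) ≤ ((p : ℝ) - 1) * ((p : ℝ) - om p a) :=
            mul_le_mul h7 h8 (by positivity) hp1.le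
          calc (om p a : ℝ) * (p : ℝ) ^ 2 ≤ D0 * (p : ℝ) ^ 2 := mul_le_mul_of_nonneg_right h3 (by positivity)
            _ = 4 * D0 * ((p : ℝ) / 2 * ((p : ℝ) / 2)) := by ring
            _ ≤ _ := mul_le_mul_of_nonneg_left h9 (by positivity)
        linarith
      · have h6 : 0 ≤ (om p a : ℝ) / (((p : ℝ) - 1) * ((p : ℝ) - om p a)) := by positivity
        linarith
  have hsm : ∀ p ∈ S, 0 ≤ 4 * (D0 : ℝ) * (1 / (p : ℝ) ^ 2) ∧ 4 * (D0 : ℝ) * (1 / (p : ℝ) ^ 2) ≤ 1 := by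
    intro p hp
    obtain ⟨h1, h2, h3, h4⟩ := hfac p hp
    have hp0 : (0 : ℝ) < p := by linarith
    refine ⟨by positivity, ?_⟩
    rw [mul_one_div, div_le_one (by positivity)]
    have h5 : 2 * (D0 : ℝ) + 2 ≤ z := by exact_mod_cast hzD
    nlinarith
  have hPR1 : 1 - 4 * (D0 : ℝ) / z ≤ PR := by
    have h1 : 1 - ∑ p ∈ S, 4 * (D0 : ℝ) * (1 / (p : ℝ) ^ 2) ≤ ∏ p ∈ S, (1 - 4 * (D0 : ℝ) * (1 / (p : ℝ) ^ 2)) :=
      prod_ge hsm
    have h2 : ∏ p ∈ S, (1 - 4 * (D0 : ℝ) * (1 / (p : ℝ) ^ 2)) ≤ PR := by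
      rw [hPR]
      exact prod_le_prod (fun p hp => by linarith [(hsm p hp).2]) fun p hp => (hlow p hp).1
    have h3 : ∑ p ∈ S, 4 * (D0 : ℝ) * (1 / (p : ℝ) ^ 2) ≤ 4 * (D0 : ℝ) * (1 / (z : ℝ)) := by
      rw [← mul_sum]
      refine mul_le_mul_of_nonneg_left ?_ (by positivity)
      refine le_trans ?_ (Pool.Agent.H13K.PY.sum_sq (k := z) (n := Y) (by omega))
      refine sum_le_sum_of_subset_of_nonneg (fun p hp => ?_) fun _ _ _ => by positivity
      rw [mem_Ioc]
      exact ⟨(hSp p hp).2.1, (hSp p hp).2.2⟩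
    have h4 : 4 * (D0 : ℝ) / z = 4 * (D0 : ℝ) * (1 / (z : ℝ)) := by ring
    rw [h4]
    linarith
  have hPR2 : PR ≤ 1 + 4 * η := by
    have h1 : PR ≤ ∏ p ∈ S, Real.exp (if (p : ℤ) ∣ ∏ i, a i 0 then 2 * (1 / (p : ℝ)) else 0) := by
      rw [hPR]
      refine prod_le_prod (fun p hp => ?_) fun p hp => ?_
      · exact le_trans (by linarith [(hsm p hp).2]) (hlow p hp).1
      · refine (hlow p hp).2.trans ?_
        rw [add_comm]
        exact Real.add_one_le_exp _
    rw [← Real.exp_sum, ← sum_filter, ← mul_sum] at h1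
    have h2 : ∑ p ∈ S.filter (fun p : ℕ => (p : ℤ) ∣ ∏ i, a i 0), 1 / (p : ℝ) ≤ η := by
      refine le_trans (sum_le_sum_of_subset_of_nonneg (fun p hp => ?_) fun _ _ _ => by positivity) hsum
      have h3 := hSp p (mem_filter.mp hp).1
      rw [mem_filter, mem_Ioc]
      exact ⟨⟨h3.2.1, h3.2.2.trans hYH⟩, h3.1, (mem_filter.mp hp).2⟩
    set x : ℝ := 2 * η with hx
    have h6 : Real.exp x ≤ 1 + 2 * x := by
      have h7 : 1 - x ≤ Real.exp (-x) := by linarith [Real.add_one_le_exp (-x)]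
      have h8 : Real.exp x * Real.exp (-x) = 1 := by rw [← Real.exp_add]; simp
      have h9 : 0 < Real.exp x := Real.exp_pos x
      have h10 : Real.exp x * (1 - x) ≤ 1 := by
        have h11 := mul_le_mul_of_nonneg_left h7 h9.le
        linarith
      nlinarith
    have h7 : 4 * η = 2 * x := by rw [hx]; ring
    rw [h7]
    refine (h1.trans (Real.exp_le_exp.mpr ?_)).trans h6
    rw [hx]
    linarith
  have hDz : 0 ≤ 4 * (D0 : ℝ) / z := by positivity
  have hPR3 : |PR - 1| ≤ 4 * (D0 : ℝ) / z + 4 * η := by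
    rw [abs_le]
    constructor <;> linarith
  have hC1 : 0 ≤ C1 z a := by
    unfold C1
    refine prod_nonneg fun p hp => ?_
    have hpp := (mem_pz.mp hp).2
    have h2 : (2 : ℝ) ≤ p := by exact_mod_cast hpp.two_le
    have h3 := om1_sub p hpp a
    have h4 : (om1 p a : ℝ) ≤ (p : ℝ) - 1 := by
      have h5 : om1 p a + 1 ≤ p := by
        have := hpp.two_le
        omega
      have h6 : (om1 p a : ℝ) + 1 ≤ p := by exact_mod_cast h5
      linarith
    have h7 : (om1 p a : ℝ) / (p - 1) ≤ 1 := by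
      rw [div_le_one (by linarith)]
      exact h4
    have h8 : 1 / (p : ℝ) ≤ 1 := by
      rw [div_le_one (by linarith)]
      linarith
    exact div_nonneg (by linarith) (pow_nonneg (by linarith) _)
  have hPB1 : |PB - 1| ≤ 2 * δ + 4 * (D0 : ℝ) / z + 4 * η := by
    have h1 : PB - 1 = (PA - 1) * PR + (PR - 1) := by rw [hPBe]; ring
    have h2 : 0 ≤ PR := by
      rw [hPR]
      exact prod_nonneg fun p hp => le_trans (by linarith [(hsm p hp).2]) (hlow p hp).1
    have h3 : PR ≤ 2 := by linarith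
    rw [h1]
    calc |(PA - 1) * PR + (PR - 1)| ≤ |(PA - 1) * PR| + |PR - 1| := abs_add_le _ _
      _ = |PA - 1| * PR + |PR - 1| := by rw [abs_mul, abs_of_nonneg h2]
      _ ≤ δ * 2 + (4 * (D0 : ℝ) / z + 4 * η) := by
        refine add_le_add (mul_le_mul hPA1 h3 h2 hδ0) hPR3
      _ ≤ _ := by
        linarith
  have h1 : C1 Y a - C1 z a = C1 z a * (PB - 1) := by rw [h1Y]; ring
  rw [h1, abs_mul, abs_of_nonneg hC1, mul_comm]
  exact mul_le_mul_of_nonneg_right hPB1 hC1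

theorem t (hPY : S_PY) (hLC : S_LOWC) (_hLCP : S_LOWCP) : S_PYQ := by
  classical
  intro m dd hdd ε0 hε0
  obtain ⟨ε, hε, hεle, hε1⟩ : ∃ ε : ℝ, 0 < ε ∧ ε ≤ ε0 ∧ ε ≤ 1 :=
    ⟨min ε0 1, lt_min hε0 one_pos, min_le_left _ _, min_le_right _ _⟩
  obtain ⟨C, zP, hC, hPY⟩ := hPY m dd hdd
  obtain ⟨c, D, hc, hLC⟩ := hLC m dd
  set D0 : ℕ := ∑ i, dd i with hD0
  have hC0 : 0 < C := by linarith
  have hm0 : (0 : ℝ) ≤ m := Nat.cast_nonneg _
  have hD00 : (0 : ℝ) ≤ D0 := Nat.cast_nonneg _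
  -- the choice of `z0`
  have hev : ∀ᶠ z : ℕ in Filter.atTop, zP ≤ z ∧ 3 ≤ z ∧ 2 * D0 + 2 ≤ z ∧
      C * (z : ℝ) ^ (-(1 / 4) : ℝ) ≤ ε / 4 ∧ C * (z : ℝ) ^ (-(1 / 20) : ℝ) ≤ ε / 16 ∧
      16 * (D0 : ℝ) / z ≤ ε ∧ 256 * (m : ℝ) / z ≤ ε ^ 2 := by
    have t1 : ∀ s : ℝ, 0 < s → ∀ K e : ℝ, 0 < e → ∀ᶠ z : ℕ in Filter.atTop, K * (z : ℝ) ^ (-s) ≤ e := by
      intro s hs K e he
      have h1 : Filter.Tendsto (fun z : ℕ => K * (z : ℝ) ^ (-s)) Filter.atTop (nhds (K * 0)) :=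
        ((tendsto_rpow_neg_atTop hs).comp tendsto_natCast_atTop_atTop).const_mul K
      rw [mul_zero] at h1
      exact (h1.eventually (eventually_lt_nhds he)).mono fun z hz => hz.le
    have t2 : ∀ K e : ℝ, 0 < e → ∀ᶠ z : ℕ in Filter.atTop, K / (z : ℝ) ≤ e := by
      intro K e he
      exact ((tendsto_const_div_atTop_nhds_zero_nat K).eventually (eventually_lt_nhds he)).mono fun z hz => hz.le
    filter_upwards [Filter.eventually_ge_atTop zP, Filter.eventually_ge_atTop 3,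
      Filter.eventually_ge_atTop (2 * D0 + 2), t1 (1 / 4) (by norm_num) C (ε / 4) (by positivity),
      t1 (1 / 20) (by norm_num) C (ε / 16) (by positivity), t2 (16 * D0) ε hε, t2 (256 * m) (ε ^ 2) (by positivity)]
      with z h1 h2 h3 h4 h5 h6 h7
    exact ⟨h1, h2, h3, h4, h5, h6, h7⟩
  obtain ⟨z, hzP, hz3, hzD, hz4, hz20, hzD', hzm⟩ := hev.exists
  have hzr : (3 : ℝ) ≤ z := by exact_mod_cast hz3
  refine ⟨z, 1, hz3, fun H hH => ?_⟩
  obtain ⟨Bad, hB1, hB2, hB3⟩ := hPY H z hzP hH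
  set f : (∀ i : Fin m, Fin (dd i + 1) → ℤ) → ℝ := fun a =>
    ∑ p ∈ (Ioc z H).filter (fun p : ℕ => p.Prime ∧ (p : ℤ) ∣ ∏ i, a i 0), 1 / (p : ℝ) with hf
  have hf0 : ∀ a, 0 ≤ f a := fun a => sum_nonneg fun p _ => by positivity
  set b : ℝ := ((bx dd H).card : ℝ) with hb
  have hb0 : 0 ≤ b := Nat.cast_nonneg _
  set η : ℝ := ε / 32 with hη
  have hη0 : 0 < η := by positivity
  refine ⟨Bad ∪ (bx dd H).filter (fun a => η < f a), union_subset hB1 (filter_subset _ _), ?_, ?_⟩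
  · have h1 : (((bx dd H).filter (fun a => η < f a)).card : ℝ) * η ≤ m * b * (2 / z) := by
      refine le_trans ?_ (mean dd H z (by omega))
      calc (((bx dd H).filter (fun a => η < f a)).card : ℝ) * η =
            ∑ a ∈ (bx dd H).filter (fun a => η < f a), η := by rw [sum_const, nsmul_eq_mul]
        _ ≤ ∑ a ∈ (bx dd H).filter (fun a => η < f a), f a := sum_le_sum fun a ha => (mem_filter.mp ha).2.le
        _ ≤ ∑ a ∈ bx dd H, f a := sum_le_sum_of_subset_of_nonneg (filter_subset _ _) fun a _ _ => hf0 a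
    have h2 : (((bx dd H).filter (fun a => η < f a)).card : ℝ) ≤ ε / 4 * b := by
      have h3 : m * b * (2 / z) ≤ (ε / 4 * b) * η := by
        have h4 : m * b * (2 / z) = b * (256 * m / z) / 128 := by ring
        have h5 : (ε / 4 * b) * η = b * ε ^ 2 / 128 := by rw [hη]; ring
        rw [h4, h5]
        exact div_le_div_of_nonneg_right (mul_le_mul_of_nonneg_left hzm hb0) (by norm_num)
      exact le_of_mul_le_mul_right (h1.trans h3) hη0
    have h3 : (Bad.card : ℝ) ≤ ε / 4 * b := by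
      refine hB2.trans ?_
      rw [mul_right_comm]
      exact mul_le_mul_of_nonneg_right hz4 hb0
    have h4 : ((Bad ∪ (bx dd H).filter (fun a => η < f a)).card : ℝ) ≤
        Bad.card + ((bx dd H).filter (fun a => η < f a)).card := by
      exact_mod_cast card_union_le _ _
    have h5 : 0 ≤ (ε0 - ε) * b := mul_nonneg (by linarith) hb0
    have h6 : 0 ≤ ε * b := by positivity
    nlinarith
  · intro a ha haB hom1 Y hY1 hY2
    rw [mem_union, not_or] at haB
    have hYH : Y ≤ H := (Nat.le_self_pow (by norm_num) Y).trans hY2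
    have hpos : 0 < Cz z a := by
      refine lt_of_lt_of_le ?_ ((hLC z a hz3).2.2 fun p hp =>
        Pool.Agent.H12P.LOWCP.om_ne p (mem_pz.mp hp).2 a (hom1 p (mem_pz.mp hp).2))
      have : 0 < Real.log z := Real.log_pos (by linarith)
      positivity
    have hsum : f a ≤ η := by
      by_contra hcon
      exact haB.2 (mem_filter.mpr ⟨ha, not_le.mp hcon⟩)
    have h1 := main hz3 hzD (by linarith) hη0.le (by linarith) hsum hpos hY1 hYH (hB3 a ha haB.1 Y hY1 hY2)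
    have hC1 : 0 ≤ C1 z a := by
      unfold C1
      refine prod_nonneg fun p hp => ?_
      have hpp := (mem_pz.mp hp).2
      have h2 : (2 : ℝ) ≤ p := by exact_mod_cast hpp.two_le
      have h3 := om1_sub p hpp a
      have h4 : (om1 p a : ℝ) ≤ (p : ℝ) - 1 := by
        have h5 : om1 p a + 1 ≤ p := by
          have := hpp.two_le
          omega
        have h6 : (om1 p a : ℝ) + 1 ≤ p := by exact_mod_cast h5
        linarith
      have h7 : (om1 p a : ℝ) / (p - 1) ≤ 1 := by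
        rw [div_le_one (by linarith)]
        exact h4
      have h8 : 1 / (p : ℝ) ≤ 1 := by
        rw [div_le_one (by linarith)]
        linarith
      exact div_nonneg (by linarith) (pow_nonneg (by linarith) _)
    refine h1.trans (mul_le_mul_of_nonneg_right ?_ hC1)
    rw [← hD0]
    have h2 : 4 * (D0 : ℝ) / z ≤ ε / 4 := by
      have : 4 * (D0 : ℝ) / z = (16 * D0 / z) / 4 := by ring
      rw [this]
      linarith
    linarith

end Pool.Agent.H13L.PYQ
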